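import Pool.Agent.Lib.MP_33b3f9_ag.MG.Un.TMain
import Pool.Agent.Lib.MP_33b3f9_ag.MG.Un.RF
import Pool.Agent.Lib.MP_33b3f9_ag.MG.Br.Seg
import Pool.Agent.Lib.MP_33b3f9_ag.MG.Br.Pel
import Pool.Agent.Lib.MP_33b3f9_ag.MG.Br.Conj

/-!
The theorem for uniformised abelian varieties of type I.
-/

set_option autoImplicit false

noncomputable section

namespace MG.Un

open Matrix MvPolynomial M4 M4.Un MG.Br Pool.Agent.Lib.MP_33b3f9_ag
open Pool.Agent.MG (Unif galU End0 lef)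

theorem m_eval {α K : Type} [Field K] [Algebra K ℂ] (P : MvPolynomial (α ⊕ α) K) (v w : α → ℂ) :
    eval v (aeval (Sum.elim X fun b => C (w b)) P : MvPolynomial α ℂ) = aeval (Sum.elim v w) P := by
  induction P using MvPolynomial.induction_on with
  | C c => simp
  | add p q hp hq => simp only [map_add, hp, hq]
  | mul_X p i hp => cases i <;> simp [hp]

variable {K : IntermediateField ℚ ℂ} {α : Type} [Fintype α] {J : Set (MvPolynomial α K)} {g : ℕ}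
  {p : (Fin g ⊕ Fin g → ℝ) ≃ₗ[ℝ] (Fin g → ℂ)} {u : (Fin g → ℂ) → α → ℂ}

theorem m_ne (h : Unif J p u) (z : Fin g → ℂ) : u z ≠ 0 :=
  ((h.img (u z)).2 ⟨z, 1, one_ne_zero, (one_smul _ _).symm⟩).1

theorem m_per (h : Unif J p u) (n : Fin g ⊕ Fin g → ℤ) (z : Fin g → ℂ) :
    ∃ c : ℂ, u (z + p (rz n)) = c • u z := (h.inj _ _).2 ⟨n, add_sub_cancel_left _ _⟩

/-- Translations are given by forms near every point. -/
theorem m_sub (h : Unif J p u) (z₀ w₀ : Fin g → ℂ) :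
    ∃ (d : ℕ) (Ψ : α → MvPolynomial α ℂ), (∀ a, (Ψ a).IsHomogeneous d) ∧
      (∃ a, eval (u z₀) (Ψ a) ≠ 0) ∧ ∀ z, ∃ c, ∀ a, eval (u z) (Ψ a) = c * u (z - w₀) a := by
  obtain ⟨Ψ, h0, hΨ⟩ := h.sub z₀ w₀
  refine hom_sub (Ψ := fun a => aeval (Sum.elim X fun b => C (u w₀ b)) (Ψ a)) (m_ne h) ?_
    fun z s => ?_
  · simpa only [m_eval] using h0
  · simpa only [m_eval, one_smul] using hΨ z w₀ s 1

/-- An automorphism of `ℂ` over `K` acts additively on the torus. -/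
theorem m_gr (h : Unif J p u) (σ : ℂ ≃ₐ[K] ℂ) :
    Gr fun x y => ∃ c : ℂ, ∀ a, σ (u (p x) a) = c * u (p y) a := by
  have hσ : ∀ {β : Type} (v : β → ℂ) (P : MvPolynomial β K),
      σ (aeval v P) = aeval (fun a => σ (v a)) P := fun v P =>
    (MvPolynomial.comp_aeval_apply v (σ : ℂ →ₐ[K] ℂ) P :)
  have n0 : ∀ z, (fun a => σ (u z a)) ≠ 0 := fun z e =>
    m_ne h z (funext fun a => (map_eq_zero σ).1 (congrFun e a))
  refine ⟨fun x => ?_, ?_, ?_, ?_⟩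
  · obtain ⟨z, c, -, hc⟩ := (h.img fun a => σ (u (p x) a)).1 ⟨n0 _, fun P hP => by
      rw [← hσ, ((h.img (u (p x))).2 ⟨_, 1, one_ne_zero, (one_smul _ _).symm⟩).2 P hP, map_zero]⟩
    exact ⟨p.symm z, c, fun a => by rw [p.apply_symm_apply]; exact congrFun hc a⟩
  · rintro x y x' y' ⟨c, hc⟩ ⟨c', hc'⟩
    obtain ⟨Ψ, ⟨a₀, h0⟩, hΨ⟩ := h.sub (p x) (p x')
    obtain ⟨d, hd⟩ := hΨ (p x) (p x') 1 1
    obtain ⟨d', hd'⟩ := hΨ (p y) (p y') c c'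
    simp only [one_smul] at hd
    have hd0 : σ d ≠ 0 := (map_ne_zero σ).2 (left_ne_zero_of_mul (hd a₀ ▸ h0))
    refine ⟨d' / σ d, fun a => ?_⟩
    have e : (fun i => σ (Sum.elim (u (p x)) (u (p x')) i)) =
        Sum.elim (c • u (p y)) (c' • u (p y')) := by
      funext i
      rcases i with i | i
      exacts [hc i, hc' i]
    rw [map_sub, map_sub, div_mul_eq_mul_div, eq_div_iff hd0, ← hd', ← e, ← hσ, hd, map_mul,
      mul_comm]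
  · rintro x y y' ⟨c, hc⟩ ⟨c', hc'⟩
    have c0 : c ≠ 0 := fun e => n0 (p x) (funext fun a => by rw [hc, e, zero_mul, Pi.zero_apply])
    obtain ⟨n, hn⟩ := (h.inj (p y) (p y')).1 ⟨c' / c, funext fun a => by
      rw [Pi.smul_apply, smul_eq_mul, div_mul_eq_mul_div, eq_div_iff c0, ← hc', hc, mul_comm]⟩
    exact ⟨n, p.injective (by rw [map_sub]; exact hn)⟩
  · rintro x y n n' ⟨c, hc⟩
    obtain ⟨d, hd⟩ := m_per h n (p x)
    obtain ⟨d', hd'⟩ := m_per h (-n') (p (y + rz n'))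
    rw [← map_add, rz_neg, add_neg_cancel_right] at hd'
    refine ⟨σ d * c * d', fun a => ?_⟩
    rw [map_add p x, hd, Pi.smul_apply, smul_eq_mul, map_mul, hc, hd', Pi.smul_apply, smul_eq_mul]
    ring

theorem m_img (h : Unif J p u) (v : α → ℂ) (hv : v ≠ 0) :
    (∀ F ∈ map (algebraMap K ℂ) '' J, eval v F = 0) ↔ ∃ z, ∃ c : ℂ, v = c • u z := by
  rw [Set.forall_mem_image]
  simp only [eval_map, ← aeval_def]
  refine ⟨fun h1 => ?_, ?_⟩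
  · obtain ⟨z, c, -, e⟩ := (h.img v).1 ⟨hv, h1⟩
    exact ⟨z, c, e⟩
  · rintro ⟨z, c, rfl⟩
    exact ((h.img _).2 ⟨z, c, left_ne_zero_of_smul hv, rfl⟩).2

theorem main (full : ∀ [Dim] {e : ℕ} {a b : MZ} {m n : ℕ} {τ : Mat} {K : IntermediateField ℚ ℂ}
      {r : Rep K}, AV τ K r → PEL e a b m n → τ ∈ FX a b → EndX a b τ → COMM a b r →
      GEN a b (cst τ) → FULL e a b r)
    [FiniteDimensional ℚ K] (hA : Unif J p u) {I : Matrix (Fin g ⊕ Fin g) (Fin g ⊕ Fin g) ℝ}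
    (hI : ∀ x, p (I *ᵥ x) = Complex.I • p x) (F : Type) [Field F] [NumberField F]
    [NumberField.IsTotallyReal F]
    (hg : g = 4 * Module.finrank ℚ F) (φ : F →ₐ[ℚ] Matrix (Fin g ⊕ Fin g) (Fin g ⊕ Fin g) ℚ)
    (hE : Set.range φ = End0 I) (hL : lef I ⊆ zeroSet ℂ (mtEqns I)) (ℓ : ℕ) [Fact ℓ.Prime]
    (U : Subgroup (ℂ ≃ₐ[K] ℂ)) (hU : U.FiniteIndex)
    (h : galU p u ℓ U ⊆ zeroSet ℚ_[ℓ] (mtEqns I)) :
    zcl (AlgebraicClosure ℚ_[ℓ]) (galU p u ℓ U) = zeroSet (AlgebraicClosure ℚ_[ℓ]) (mtEqns I) := by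
  have : Nonempty (Fin g) := ⟨⟨0, by have : 0 < Module.finrank ℚ F := Module.finrank_pos; omega⟩⟩
  have hu : ∀ a, Differentiable ℂ fun z => u z a := differentiable_pi.1 hA.hol
  obtain ⟨τ, G, k, v, γ, χ, hτ, hG, hGI, hk, hγ, hvu, hv, hχ, hUv⟩ :=
    RF' u hA.hol (m_ne hA) p hI (m_per hA) fun z c e =>
      ((hA.inj z 0).1 ⟨c, e⟩).imp fun n hn => (sub_zero z).symm.trans hn
  obtain ⟨φ', hφ⟩ := end_conj hG hGI φ hE
  obtain ⟨a, b, m, n, hP, hX, hE', hb1⟩ := exists_pel hτ F (by rw [Fintype.card_fin, hg]) φ' hφ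
  have hgen := gen_of_lef (lef_conj hτ hG hGI hL) a b hE'
  have e1 : mz (dl G) = dl (mz G) := dl_map Int.cast_zero G
  have hG2 : (dl G).det ≠ 0 := by
    rw [dl_det]
    exact pow_ne_zero 2 hG
  have hGI2 : cst (dg (Fin 2) τ) * mz (dl G) = mz (dl G) * dl I := by
    rw [e1, cst_dg, ← map_mul, hGI, map_mul]
  have hu2 : ∀ a, Differentiable ℂ fun z => u2 u z a := fun a =>
    ((hu a.1).comp (by fun_prop)).mul ((hu a.2).comp (by fun_prop))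
  have h02 : ∀ z, u2 u z ≠ 0 := fun z => by
    obtain ⟨a, ha⟩ := Function.ne_iff.1 (m_ne hA fun i => z (i, 0))
    obtain ⟨b, hb⟩ := Function.ne_iff.1 (m_ne hA fun i => z (i, 1))
    exact Function.ne_iff.2 ⟨(a, b), mul_ne_zero ha hb⟩
  have hI2 : ∀ x, p2 p (dl I *ᵥ x) = Complex.I • p2 p x := fun x => funext fun q =>
    (congrFun (p2_slt p _ q.2) q.1).trans (by rw [slt_dl, hI]; rfl)
  have hi := seg_iff u (m_ne hA) p
  have hgr : ∀ σ : ℂ ≃ₐ[K] ℂ,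
      Gr fun x y => ∃ c, ∀ a, σ (u2 u (p2 p x) a) = c * u2 u (p2 p y) a := fun σ =>
    (congrArg Gr (funext₂ fun x y => propext (hi σ x y))).mpr (gr2 (m_gr hA σ))
  have hrat := seg_rat u hu (m_ne hA) p _ (m_img hA) hA.inj (m_sub hA)
  have hγ2 : ∀ x : N2 (Fin g) → ℝ, γ (slt x 0) * γ (slt x 1) ≠ 0 := fun x =>
    mul_ne_zero (hγ _) (hγ _)
  have hvu2 : ∀ (a : α × α) x, v a.1 (slt (mz (dl G) *ᵥ x) 0) * v a.2 (slt (mz (dl G) *ᵥ x) 1) =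
      γ (slt x 0) * γ (slt x 1) * u2 u (p2 p x) a := fun a x => by
    rw [e1, slt_dl, slt_dl, hvu, hvu, mul_mul_mul_comm]
    rfl
  have hχ2 : ∀ n : N2 (Fin g) → ℤ, ‖χ (slt n 0) * χ (slt n 1)‖ = 1 := fun n => by
    rw [norm_mul, hχ, hχ, one_mul]
  have hU2 : ∀ n (a : α × α), M4.U (4 / k) (mz (dl G) *ᵥ rz n)
      (fun w => v a.1 (slt w 0) * v a.2 (slt w 1)) =
      (χ (slt n 0) * χ (slt n 1)) • fun w => v a.1 (slt w 0) * v a.2 (slt w 1) := fun n a =>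
    funext fun w => by
      rw [U2, e1, slt_dl, slt_dl, slt_rz, slt_rz, hUv, hUv]
      exact mul_mul_mul_comm _ _ _ _
  let := D2 (Fin g)
  obtain ⟨U₁, hU₁, hR⟩ := descend hX.1 K (u2 u) hu2 h02 (p2 p) hI2 (G := dl G) hG2 hGI2 hk
    (fun a w => v a.1 (slt w 0) * v a.2 (slt w 1)) _ hγ2 hvu2
    (fun a => hol2 (hv a.1) (hv a.2)) _ hχ2 hU2 hgr (hrat k)
  obtain ⟨U₂, hU₂, ha⟩ := descend_end hX.1 K (u2 u) hu2 h02 (p2 p) hI2 (G := dl G) hG2 hGI2 hk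
    (fun a w => v a.1 (slt w 0) * v a.2 (slt w 1)) _ hγ2 hvu2
    (fun a => hol2 (hv a.1) (hv a.2)) _ hχ2 hU2 hgr hrat hP.m0 hP.sim_a hX.2.1
  have hsb : Sim (zr b) (1 : ℕ) := by
    rw [sim_nat, hP.bJ, mul_assoc, hb1, mul_one, Nat.cast_one, one_smul]
  obtain ⟨U₃, hU₃, hb⟩ := descend_end hX.1 K (u2 u) hu2 h02 (p2 p) hI2 (G := dl G) hG2 hGI2 hk
    (fun a w => v a.1 (slt w 0) * v a.2 (slt w 1)) _ hγ2 hvu2
    (fun a => hol2 (hv a.1) (hv a.2)) _ hχ2 hU2 hgr hrat one_pos hsb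
    ((fix_iff hsb (Nat.cast_pos.2 one_pos) hX.1).2 hX.2.2)
  refine diag_main h fun T hT => transfer K hP hX (fun _ _ h hc => full h hP hX hE' hc hgen) hG2
    hGI2 hgr (U₁ ⊓ (U₂ ⊓ U₃)) (fun σ hσ => hR σ hσ.1) (fun σ hσ => ha σ hσ.2.1)
    one_ne_zero (fun σ hσ => (one_smul ℤ b).symm ▸ hb σ hσ.2.2) ℓ U hU fun σ hσ x hx => ?_
  obtain ⟨y, hy, e2⟩ := ta2 (m_gr hA σ) (x := x) fun n s t hst => (hi σ _ _).1 (hx n s t hst)
  refine (hT _).2 ⟨_, ⟨y, ⟨σ, hσ, fun n s t hst => ?_⟩, rfl⟩,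
    (congrArg (·.map PadicInt.Coe.ringHom) e2).trans (dl_map (map_zero _) _)⟩
  have e : ∀ x : Fin g ⊕ Fin g → ℤ, (fun i => (x i : ℝ) / (ℓ : ℝ) ^ n) = M4.Kz.rq (ℓ ^ n) x :=
    fun x => by
      funext i
      simp [M4.Kz.rq, rz, div_eq_inv_mul]
  rw [e, e]
  exact hy n s t hst

end MG.Un
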