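import Pool.Agent.Lib.MP_33b3f9_ag.MG.Un.SMain
import Pool.Agent.Lib.MP_33b3f9_ag.MG.CBOpen
import Pool.Agent.Lib.MP_33b3f9_ag.MG.Tr

/-!
The endomorphisms are defined over a number field.
-/

set_option autoImplicit false

noncomputable section

namespace MG.Un

open Complex Matrix MvPolynomial M4 M4.Un

variable [Dim] {τ : Mat}

/-- The descent along the isogeny composed with an endomorphism. -/
theorem descend_end (hτ : InH τ) (K : IntermediateField ℚ ℂ) {α : Type}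
    (u : (ι → ℂ) → α → ℂ) (hu : ∀ a, Differentiable ℂ fun z => u z a) (h0 : ∀ z, u z ≠ 0)
    (p : (ν → ℝ) ≃ₗ[ℝ] (ι → ℂ)) {J : Matrix ν ν ℝ} (hJ : ∀ x, p (J *ᵥ x) = I • p x)
    {G : MZ} (hG : G.det ≠ 0) (hGI : cst τ * zr G = zr G * J) {k : ℕ} (hk : k ≠ 0)
    (v : α → (ν → ℝ) → ℂ) (γ : (ν → ℝ) → ℂ) (hγ : ∀ x, γ x ≠ 0)
    (hvu : ∀ a x, v a (zr G *ᵥ x) = γ x * u (p x) a) (hv : ∀ a, v a ∈ Hol τ (4 / k))
    (χ : (ν → ℤ) → ℂ) (hχ : ∀ n, ‖χ n‖ = 1)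
    (hU : ∀ n a, U (4 / k) (zr G *ᵥ rz n) (v a) = χ n • v a)
    (hgr : ∀ σ : ℂ ≃ₐ[K] ℂ, Gr fun x y => ∃ c, ∀ a, σ (u (p x) a) = c * u (p y) a)
    (hrat : ∀ (k : ℕ) (s : (ι → ℂ) → ℂ), Differentiable ℂ s →
      (∀ z w (c : ℂ), u z = c • u w → s z = c ^ k * s w) → ∀ z₀,
        ∃ (e : ℕ) (P Q : MvPolynomial α ℂ), P.IsHomogeneous (e + k) ∧ Q.IsHomogeneous e ∧
          eval (u z₀) Q ≠ 0 ∧ ∀ z, s z * eval (u z) Q = eval (u z) P)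
    {d : MZ} {m : ℕ} (hm : 0 < m) (hd : Sim (zr d) m) (hf : act (zr d) τ = τ) :
    ∃ U₁ : Subgroup (ℂ ≃ₐ[K] ℂ), U₁.FiniteIndex ∧ ∀ σ ∈ U₁, ∀ x y,
      (∃ c, ∀ a, σ (u (p x) a) = c * u (p y) a) →
        Gal.Rl τ σ.toRingEquiv (zr (d * G) *ᵥ x) (zr (d * G) *ᵥ y) := by
  have hm' : (0 : ℝ) < m := Nat.cast_pos.2 hm
  have hk' : (k : ℝ) ≠ 0 := Nat.cast_ne_zero.2 hk
  have hu' : IsUnit (zr d).det := (hd.det_ne_zero hm'.ne').isUnit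
  have hi := hd.inv hm'.ne'
  have hc := (fix_iff hd hm' hτ).1 hf
  have hr : Rel (zr d)⁻¹ τ τ := by
    have h1 := M4.rel_act hi (inv_pos.2 hm') hτ
    have h2 := act_mul' hi (inv_pos.2 hm') hd hm' hτ
    rw [nonsing_inv_mul _ hu', M4.act_one, hf] at h2
    rwa [← h2] at h1
  have e1 : ∀ w, (zr d)⁻¹ *ᵥ zr d *ᵥ w = w := fun w => by
    rw [mulVec_mulVec, nonsing_inv_mul _ hu', one_mulVec]
  have e2 : ∀ w, zr (d * G) *ᵥ w = zr d *ᵥ zr G *ᵥ w := fun w => by rw [zr_mul, mulVec_mulVec]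
  have e3 : (4 : ℝ) / (k * m : ℕ) = 4 / k * (m : ℝ)⁻¹ := by
    push_cast
    field_simp
  refine descend hτ K u hu h0 p hJ (G := d * G) (by
      rw [det_mul]
      exact mul_ne_zero (det_ne hm hd) hG)
    (by rw [zr_mul, ← Matrix.mul_assoc, ← hc, Matrix.mul_assoc, hGI, Matrix.mul_assoc])
    (k := k * m) (mul_ne_zero hk hm.ne') (fun a w => v a ((zr d)⁻¹ *ᵥ w)) γ hγ
    (fun a x => by rw [e2, e1, hvu]) (fun a => ?_) χ hχ (fun n a => funext fun w => ?_) hgr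
    (hrat _)
  · rw [e3]
    exact Hol.comp_rel hτ.1 hτ.1 hi hr (hv a)
  · obtain ⟨w, rfl⟩ : ∃ w', zr d *ᵥ w' = w :=
      ⟨(zr d)⁻¹ *ᵥ w, by rw [mulVec_mulVec, mul_nonsing_inv _ hu', one_mulVec]⟩
    have h1 := congrFun (hU n a) w
    rw [U_apply, Pi.smul_apply] at h1
    rw [U_apply, Pi.smul_apply, e2, hd, ← mulVec_add, e1, e1, ← h1, e3, ← ofReal_mul, ← ofReal_mul,
      ← mul_assoc, inv_mul_cancel_right₀ hm'.ne']

variable {K : IntermediateField ℚ ℂ} {r : Rep K}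

omit [Dim] in
/-- An automorphism over a larger field is an automorphism over the smaller field. -/
def res {K' : IntermediateField ℚ ℂ} (h : K ≤ K') : (ℂ ≃ₐ[K'] ℂ) →* (ℂ ≃ₐ[K] ℂ) where
  toFun σ := AlgEquiv.ofRingEquiv (f := σ.toRingEquiv) fun x => σ.commutes ⟨x, h x.2⟩
  map_one' := rfl
  map_mul' _ _ := rfl

/-- A nonzero matrix is nonzero modulo a power of `l`. -/
theorem exists_pow {l : ℕ} [Fact l.Prime] {x : Matrix ν ν ℤ_[l]} (h : x ≠ 0) :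
    ∃ n : ℕ, ¬ ∀ i j, (l : ℤ_[l]) ^ n ∣ x i j := by
  by_contra h1
  refine h (Matrix.ext fun i j => PadicInt.ext_of_toZModPow.1 fun n => ?_)
  rw [Matrix.zero_apply, map_zero, ← RingHom.mem_ker, PadicInt.ker_toZModPow]
  exact Ideal.mem_span_singleton.2 (not_not.1 (not_exists.1 h1 n) i j)

/-- Commutation modulo `q`. -/
theorem comm_mod {R : Type} [CommRing R] {q : R} {d x y : Matrix ν ν R}
    (hx : ∀ i j, q ∣ (x - 1) i j) (hy : Commute d y) (i j : ν) :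
    q ∣ (d * (x * y) - x * y * d) i j := by
  have e : d * (x * y) - x * y * d = d * ((x - 1) * y) - (x - 1) * (y * d) := by
    rw [Matrix.sub_mul, Matrix.sub_mul, Matrix.mul_sub, Matrix.one_mul, Matrix.one_mul, hy.eq,
      Matrix.mul_assoc]
    abel
  have h1 : ∀ (z : Matrix ν ν R) i j, q ∣ ((x - 1) * z) i j := fun z i j => by
    rw [Matrix.mul_apply]
    exact Finset.dvd_sum fun s _ => (hx i s).mul_right _
  rw [e, Matrix.sub_apply]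
  refine dvd_sub ?_ (h1 _ i j)
  rw [Matrix.mul_apply]
  exact Finset.dvd_sum fun s _ => (h1 y s j).mul_left _

/-- If a subgroup of finite index commutes with `d`, so does an open subgroup. -/
theorem comm_open (h : AV τ K r) (d : MZ) (V : Subgroup (ℂ ≃ₐ[K] ℂ)) [V.FiniteIndex]
    (hV : ∀ σ ∈ V, ∀ (l : ℕ) [Fact l.Prime], Commute (zM ℤ_[l] d) (r l σ : Matrix ν ν ℤ_[l])) :
    ∃ K₁ : IntermediateField ℚ ℂ, FiniteDimensional ℚ K₁ ∧ ∀ σ : ℂ ≃ₐ[K] ℂ, (∀ x ∈ K₁, σ x = x) →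
      ∀ (l : ℕ) [Fact l.Prime], Commute (zM ℤ_[l] d) (r l σ : Matrix ν ν ℤ_[l]) := by
  have h1 : ∀ ρ : ℂ ≃ₐ[K] ℂ, ∃ N : ℕ, N ≠ 0 ∧ ((∀ (l : ℕ) [Fact l.Prime] (i j : ν), (N : ℤ_[l]) ∣
      (zM ℤ_[l] d * (r l ρ : Matrix ν ν ℤ_[l]) - (r l ρ : Matrix ν ν ℤ_[l]) * zM ℤ_[l] d) i j) →
      ∀ (l : ℕ) [Fact l.Prime], Commute (zM ℤ_[l] d) (r l ρ : Matrix ν ν ℤ_[l])) := fun ρ => by
    by_cases h2 : ∀ (l : ℕ) [Fact l.Prime], Commute (zM ℤ_[l] d) (r l ρ : Matrix ν ν ℤ_[l])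
    · exact ⟨1, one_ne_zero, fun _ => h2⟩
    · obtain ⟨l, h3⟩ := not_forall.1 h2
      obtain ⟨hl, h4⟩ := not_forall.1 h3
      obtain ⟨n, hn⟩ := exists_pow (sub_ne_zero.2 h4)
      refine ⟨l ^ n, pow_ne_zero _ hl.out.ne_zero, fun h5 => absurd (fun i j => ?_) hn⟩
      simpa only [Nat.cast_pow] using h5 l i j
  choose N hN hN' using h1
  have : Fintype ((ℂ ≃ₐ[K] ℂ) ⧸ V) := Fintype.ofFinite _
  obtain ⟨K₁, hK₁, h2⟩ := CB.open_mod h (n := ∏ q : (ℂ ≃ₐ[K] ℂ) ⧸ V, N q.out)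
    (Finset.prod_ne_zero_iff.2 fun q _ => hN _)
  refine ⟨K₁, hK₁, fun σ hσ l _ => ?_⟩
  obtain ⟨c, hc⟩ := QuotientGroup.mk_out_eq_mul V σ
  have h3 := hN' (QuotientGroup.mk σ : (ℂ ≃ₐ[K] ℂ) ⧸ V).out fun l _ i j => by
    have h4 : ((N (QuotientGroup.mk σ : (ℂ ≃ₐ[K] ℂ) ⧸ V).out : ℕ) : ℤ_[l]) ∣
        ((∏ q : (ℂ ≃ₐ[K] ℂ) ⧸ V, N q.out : ℕ) : ℤ_[l]) :=
      Nat.cast_dvd_cast (Finset.dvd_prod_of_mem _ (Finset.mem_univ _))
    refine h4.trans ?_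
    rw [hc, map_mul, Units.val_mul]
    refine comm_mod (fun i j => ?_) (hV c c.2 l) i j
    have h5 := h2 σ hσ l i j
    rw [Matrix.sub_apply, Matrix.one_apply]
    rw [Matrix.one_apply] at h5
    simpa only [Int.cast_ite, Int.cast_one, Int.cast_zero] using h5
  have h6 := (h3 l).mul_right (hV _ (V.inv_mem c.2) l)
  rwa [← Units.val_mul, ← map_mul, hc, mul_inv_cancel_right] at h6

/-- The endomorphisms are defined over a finite extension. -/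
theorem exists_comm (h : AV τ K r) (a b : MZ) (V : Subgroup (ℂ ≃ₐ[K] ℂ)) [V.FiniteIndex]
    (ha : ∀ σ ∈ V, ∀ (l : ℕ) [Fact l.Prime], Commute (zM ℤ_[l] a) (r l σ : Matrix ν ν ℤ_[l]))
    (hb : ∀ σ ∈ V, ∀ (l : ℕ) [Fact l.Prime], Commute (zM ℤ_[l] b) (r l σ : Matrix ν ν ℤ_[l])) :
    ∃ (K' : IntermediateField ℚ ℂ) (hK : K ≤ K'),
      AV τ K' (fun l _ => (r l).comp (res hK)) ∧ COMM a b fun l _ => (r l).comp (res hK) := by
  obtain ⟨K₁, h1, h2⟩ := comm_open h a V ha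
  obtain ⟨K₂, h3, h4⟩ := comm_open h b V hb
  have := h.fin
  have hK : K ≤ K ⊔ (K₁ ⊔ K₂) := le_sup_left
  refine ⟨K ⊔ (K₁ ⊔ K₂), hK, ⟨h.inH, inferInstance, ⟨hK h.defX.1, fun e e' => hK (h.defX.2 e e')⟩,
    fun σ x y hxy => h.tate (res hK σ) x y hxy⟩, fun l _ σ => ⟨h2 (res hK σ) (fun x hx => ?_) l,
      h4 (res hK σ) (fun x hx => ?_) l⟩⟩
  · exact σ.commutes ⟨x, le_sup_right (a := K) (le_sup_left (b := K₂) hx)⟩
  · exact σ.commutes ⟨x, le_sup_right (a := K) (le_sup_right (a := K₁) hx)⟩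

end MG.Un
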