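import Pool.Agent.Lib.MP_33b3f9_ag.Un.SMain
import Pool.Agent.Lib.MP_33b3f9_ag.MG.IDefA

/-!
Descent of the theta coordinates along an isogeny.
-/

set_option autoImplicit false

noncomputable section

namespace MG.Un

open Complex Matrix MvPolynomial M4 M4.Un

variable [Dim]

theorem zr_rz (G : MZ) (n : ν → ℤ) : zr G *ᵥ rz n = rz (G *ᵥ n) := by
  funext i
  simp [zr, rz, mulVec, dotProduct]

theorem descend {τ : Mat} (hτ : InH τ) (K : IntermediateField ℚ ℂ) {α : Type}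
    (u : (ι → ℂ) → α → ℂ) (hu : ∀ a, Differentiable ℂ fun z => u z a) (h0 : ∀ z, u z ≠ 0)
    (p : (ν → ℝ) ≃ₗ[ℝ] (ι → ℂ)) {J : Matrix ν ν ℝ} (hJ : ∀ x, p (J *ᵥ x) = I • p x)
    {G : MZ} (hG : G.det ≠ 0) (hGI : cst τ * zr G = zr G * J) {k : ℕ} (hk : k ≠ 0)
    (v : α → (ν → ℝ) → ℂ) (γ : (ν → ℝ) → ℂ) (hγ : ∀ x, γ x ≠ 0)
    (hvu : ∀ a x, v a (zr G *ᵥ x) = γ x * u (p x) a) (hv : ∀ a, v a ∈ Hol τ (4 / k))
    (χ : (ν → ℤ) → ℂ) (hχ : ∀ n, ‖χ n‖ = 1)
    (hU : ∀ n a, U (4 / k) (zr G *ᵥ rz n) (v a) = χ n • v a)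
    (hgr : ∀ σ : ℂ ≃ₐ[K] ℂ, Gr fun x y => ∃ c, ∀ a, σ (u (p x) a) = c * u (p y) a)
    (hrat : ∀ s : (ι → ℂ) → ℂ, Differentiable ℂ s →
      (∀ z w (c : ℂ), u z = c • u w → s z = c ^ k * s w) → ∀ z₀,
        ∃ (e : ℕ) (P Q : MvPolynomial α ℂ), P.IsHomogeneous (e + k) ∧ Q.IsHomogeneous e ∧
          eval (u z₀) Q ≠ 0 ∧ ∀ z, s z * eval (u z) Q = eval (u z) P) :
    ∃ U₁ : Subgroup (ℂ ≃ₐ[K] ℂ), U₁.FiniteIndex ∧ ∀ σ ∈ U₁, ∀ x y,
      (∃ c, ∀ a, σ (u (p x) a) = c * u (p y) a) →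
        Gal.Rl τ σ.toRingEquiv (zr G *ᵥ x) (zr G *ᵥ y) := by
  have hd : IsUnit (zr G).det := by
    have := (Int.castRingHom ℝ).map_det G
    exact Ne.isUnit fun e => hG (Int.cast_eq_zero.1 (this.trans e))
  have sur : ∀ w, ∃ x, zr G *ᵥ x = w := fun w =>
    ⟨(zr G)⁻¹ *ᵥ w, by rw [mulVec_mulVec, mul_nonsing_inv _ hd, one_mulVec]⟩
  have lev : (k : ℝ) * (4 / k) = 4 := mul_div_cancel₀ _ (Nat.cast_ne_zero.2 hk)
  have nz : ∀ w, ∃ a, v a w ≠ 0 := fun w => by
    obtain ⟨x, rfl⟩ := sur w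
    obtain ⟨a, ha⟩ := Function.ne_iff.1 (h0 (p x))
    exact ⟨a, by rw [hvu]; exact mul_ne_zero (hγ x) ha⟩
  have hR : ∀ (σ : ℂ ≃ₐ[K] ℂ) x y, Rv v σ (zr G *ᵥ x) (zr G *ᵥ y) ↔
      ∃ c, ∀ a, σ (u (p x) a) = c * u (p y) a := fun σ x y => by
    have h1 := (map_ne_zero σ).2 (hγ x)
    have h2 := hγ y
    refine ⟨fun ⟨c, hc⟩ => ⟨c * γ y / σ (γ x), fun a => ?_⟩,
      fun ⟨c, hc⟩ => ⟨σ (γ x) * c / γ y, fun a => ?_⟩⟩
    · have h3 := hc a
      rw [hvu, hvu, map_mul] at h3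
      field_simp
      linear_combination h3
    · rw [hvu, hvu, map_mul, hc]
      field_simp
  have hψ : ∀ n a, U 4 (rz (G *ᵥ n)) (v a ^ k) = χ n ^ k • v a ^ k := fun n a => by
    rw [← lev, U_pow, ← zr_rz, hU, smul_pow]
  obtain ⟨t, ht⟩ := s_char (ψ := fun n => χ n ^ k) (fun n => by rw [norm_pow, hχ, one_pow])
    fun n m => by
      obtain ⟨a, ha⟩ := nz 0
      obtain ⟨j, hj⟩ := E_rz (G *ᵥ m) (G *ᵥ n)
      have h1 := U_U 4 (rz (G *ᵥ n)) (rz (G *ᵥ m)) (v a ^ k)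
      rw [← rz_add, ← mulVec_add, hψ, hψ, U_smul, hψ, hj,
        show ((4 : ℝ) : ℂ) * ((j : ℝ) : ℂ) / 2 = ((2 * j : ℤ) : ℂ) by push_cast; ring, ee_int,
        one_smul, smul_smul] at h1
      have h2 := congrFun h1 0
      rw [Pi.smul_apply, Pi.smul_apply, smul_eq_mul, smul_eq_mul] at h2
      rw [← mul_right_cancel₀ (pow_ne_zero k ha) h2, mul_comm]
  let s := t ᵥ* (zr G)⁻¹
  let y : ν → ℝ := (4 : ℝ)⁻¹ • Sum.elim (fun i => s (.inr i)) fun i => -s (.inl i)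
  have hy : ∀ x, 4 * E y (zr G *ᵥ x) = t ⬝ᵥ x := fun x => by
    have h1 : s ⬝ᵥ (zr G *ᵥ x) = t ⬝ᵥ x := by
      rw [dotProduct_mulVec, vecMul_vecMul, nonsing_inv_mul _ hd, vecMul_one]
    rw [← h1, E_smul_left, mul_inv_cancel_left₀ four_ne_zero, E, dotProduct, Fintype.sum_sum_type,
      ← Finset.sum_add_distrib]
    exact Finset.sum_congr rfl fun i _ => by simp only [Sum.elim_inl, Sum.elim_inr]; ring
  have hL : Differentiable ℂ fun z => per τ (zr G *ᵥ p.symm z) := by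
    have a1 : ∀ z w, per τ (zr G *ᵥ p.symm (z + w)) =
        per τ (zr G *ᵥ p.symm z) + per τ (zr G *ᵥ p.symm w) := fun z w => by
      rw [map_add, mulVec_add, per_add]
    have a2 : ∀ (c : ℝ) z, per τ (zr G *ᵥ p.symm ((c : ℂ) • z)) =
        (c : ℂ) • per τ (zr G *ᵥ p.symm z) := fun c z => by
      rw [Complex.coe_smul, map_smul, mulVec_smul, per_smul]
    have a3 : ∀ z, per τ (zr G *ᵥ p.symm (I • z)) = I • per τ (zr G *ᵥ p.symm z) := fun z => by
      obtain ⟨x, rfl⟩ := p.surjective z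
      rw [← hJ, p.symm_apply_apply, p.symm_apply_apply, mulVec_mulVec, ← hGI, ← mulVec_mulVec,
        per_cst hτ]
    let L : (ι → ℂ) →ₗ[ℂ] (ι → ℂ) :=
      { toFun := fun z => per τ (zr G *ᵥ p.symm z)
        map_add' := a1
        map_smul' := fun c z => by
          rw [← re_add_im c, RingHom.id_apply, add_smul, add_smul, mul_smul, mul_smul, a1, a2, a2,
            a3] }
    exact L.toContinuousLinearMap.differentiable
  have hD : Dat K τ (G.mulVecLin.range).toAddSubgroup (G.det.natAbs * G.det.natAbs) k (4 / k) y v :=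
    { inH := hτ
      D0 := mul_self_ne_zero.2 (Int.natAbs_ne_zero.2 hG)
      mem := fun m => ⟨G.det • G.adjugate *ᵥ m, by
        rw [mulVecLin_apply, mulVec_smul, mulVec_mulVec, mul_adjugate, smul_mulVec, one_mulVec,
          smul_smul, Int.natAbs_mul_self]⟩
      lev := lev
      hol := hv
      nz := nz
      law := by
        rintro _ ⟨n, rfl⟩
        refine ⟨χ n, ?_, fun a => ?_⟩
        · rw [ht, ← hy, mulVecLin_apply, zr_rz]
          norm_num
        · rw [mulVecLin_apply, ← zr_rz, hU]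
      ex := fun σ w => by
        obtain ⟨x, rfl⟩ := sur w
        obtain ⟨x', hx⟩ := (hgr σ).ex x
        exact ⟨_, (hR σ x x').2 hx⟩
      sub := fun σ a a' b b' h1 h2 => by
        obtain ⟨a, rfl⟩ := sur a
        obtain ⟨a', rfl⟩ := sur a'
        obtain ⟨b, rfl⟩ := sur b
        obtain ⟨b', rfl⟩ := sur b'
        rw [← mulVec_sub, ← mulVec_sub]
        exact (hR σ _ _).2 ((hgr σ).sub _ _ _ _ ((hR σ _ _).1 h1) ((hR σ _ _).1 h2))
      un := fun σ w a b h1 h2 => by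
        obtain ⟨w, rfl⟩ := sur w
        obtain ⟨a, rfl⟩ := sur a
        obtain ⟨b, rfl⟩ := sur b
        obtain ⟨n, hn⟩ := (hgr σ).un _ _ _ ((hR σ _ _).1 h1) ((hR σ _ _).1 h2)
        exact ⟨_, ⟨n, rfl⟩, by rw [← mulVec_sub, hn, zr_rz, mulVecLin_apply]⟩
      rat := fun f hf hft w₀ => by
        obtain ⟨x₀, rfl⟩ := sur w₀
        obtain ⟨S, hS, eS⟩ := hf
        choose A hA eA using hv
        have hs : Differentiable ℂ fun z => f (zr G *ᵥ p.symm z) / γ (p.symm z) ^ k := by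
          refine entire_of_ratio (F := fun a z => S (per τ (zr G *ᵥ p.symm z)) * u z a ^ k)
            (G := fun a z => A a (per τ (zr G *ᵥ p.symm z)) ^ k)
            (fun a => (hS.comp hL).mul ((hu a).pow k)) (fun a => ((hA a).comp hL).pow k)
            (fun z => ?_) fun a z => ?_
          · obtain ⟨a, ha⟩ := nz (zr G *ᵥ p.symm z)
            rw [eA] at ha
            exact ⟨a, pow_ne_zero k (right_ne_zero_of_mul ha)⟩
          · have h1 := congrArg (· ^ k) ((hvu a (p.symm z)).symm.trans (eA a _))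
            have h2 := hγ (p.symm z)
            have h3 : (k : ℂ) * ((4 / k : ℝ) : ℂ) = ((4 : ℝ) : ℂ) := by exact_mod_cast lev
            simp only [mul_pow, p.apply_symm_apply, ← ee_nat_mul] at h1
            rw [← mul_div_assoc, ← mul_assoc, h3] at h1
            rw [eS]
            field_simp
            linear_combination S (per τ (zr G *ᵥ p.symm z)) * h1
        obtain ⟨e, P, Q, hP, hQ, h1, h2⟩ := hrat _ hs (fun z w c hc => by
          have h3 := hγ (p.symm z)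
          have h4 := hγ (p.symm w)
          rw [hft (zr G *ᵥ p.symm z) (zr G *ᵥ p.symm w) (γ (p.symm z) * c / γ (p.symm w))
            fun a => by
              rw [hvu, hvu, p.apply_symm_apply, p.apply_symm_apply, hc, Pi.smul_apply,
                smul_eq_mul]
              field_simp, div_pow, mul_pow]
          field_simp) (p x₀)
        refine ⟨e, P, Q, hP, hQ, ?_, fun w => ?_⟩
        · simp only [hvu]
          rw [s_hom hQ]
          exact mul_ne_zero (pow_ne_zero e (hγ _)) h1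
        · obtain ⟨x, rfl⟩ := sur w
          have h3 := h2 (p x)
          have h4 := hγ x
          simp only [hvu]
          rw [s_hom hQ, s_hom hP]
          rw [p.symm_apply_apply, div_mul_eq_mul_div, div_eq_iff (pow_ne_zero k h4)] at h3
          linear_combination γ x ^ e * h3 }
  obtain ⟨U₁, h1, h2⟩ := hD.core
  exact ⟨U₁, h1, fun σ hσ x y hxy => h2 σ hσ _ _ ((hR σ x y).2 hxy)⟩

end MG.Un
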