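import Pool.Agent.Lib.MP_33b3f9_ag.Un.TConj
import Pool.Agent.Lib.MP_33b3f9_ag.MG.Un.Comm
import Pool.Agent.Lib.MP_33b3f9_ag.MG.P.GC
import Pool.Agent.Lib.MP_33b3f9_ag.MG.P.Last

/-!
Transfer of the theorem along an isogeny to the theta model.
-/

set_option autoImplicit false

noncomputable section

namespace MG.Un

open Matrix M4 M4.Un Pool.Agent.Lib.MP_33b3f9_ag

variable [Dim] {τ : Mat} {K : IntermediateField ℚ ℂ}

omit [Dim] in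
theorem alg_of_fixed [FiniteDimensional ℚ K] (U : Subgroup (ℂ ≃ₐ[K] ℂ)) [U.FiniteIndex] {z : ℂ}
    (h : ∀ σ ∈ U, σ z = z) : IsAlgebraic ℚ z := by
  refine M4.CB.alg_of_finite K
    ((Set.finite_range fun q : (ℂ ≃ₐ[K] ℂ) ⧸ U => q.out z).subset ?_)
  rintro _ ⟨σ, rfl⟩
  obtain ⟨u, hu⟩ := QuotientGroup.mk_out_eq_mul U σ
  exact ⟨QuotientGroup.mk σ, by simp only [hu, AlgEquiv.mul_apply, h _ u.2]⟩

theorem exists_field [FiniteDimensional ℚ K] (hτ : InH τ) (U : Subgroup (ℂ ≃ₐ[K] ℂ))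
    [U.FiniteIndex] (h : ∀ σ ∈ U, Gal.Rl τ σ.toRingEquiv 0 0) :
    ∃ K' : IntermediateField ℚ ℂ, K ≤ K' ∧ FiniteDimensional ℚ K' ∧ DefX τ K' := by
  let S : Set ℂ := insert (ee (1 / 8)) (Set.range fun q : Bits × Bits => th2 τ q.1 / th2 τ q.2)
  have : Finite S := ((Set.finite_range _).insert _).to_subtype
  have : FiniteDimensional ℚ (IntermediateField.adjoin ℚ S) := by
    refine IntermediateField.finiteDimensional_adjoin ?_
    rintro _ (rfl | ⟨q, rfl⟩)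
    · refine IsIntegral.of_pow (n := 8) (by norm_num) ?_
      rw [M4.Kz.ee_pow, show ((8 : ℕ) : ℂ) * (1 / 8) = (1 : ℤ) by norm_num, ee_int]
      exact isIntegral_one
    · refine (alg_of_fixed U fun σ hσ => ?_).isIntegral
      obtain ⟨c, hc⟩ := h σ hσ
      have h1 : ∀ e, σ (th2 τ e) = c * th2 τ e := fun e => by
        have h2 := hc (bz e)
        rw [XX_zero] at h2
        exact h2
      rw [map_div₀, h1, h1, mul_div_mul_left _ _ (M4.Gal.ne hτ hc)]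
  refine ⟨K ⊔ IntermediateField.adjoin ℚ S, le_sup_left, inferInstance,
    le_sup_right (a := K) (IntermediateField.subset_adjoin ℚ S (Set.mem_insert _ _)),
    fun e e' => le_sup_right (a := K) (IntermediateField.subset_adjoin ℚ S
      (Set.mem_insert_of_mem _ ⟨(e, e'), rfl⟩))⟩

omit [Dim] in
theorem det_cast {F : Type} [CommRing F] [CharZero F] {κ : Type} [Fintype κ] [DecidableEq κ]
    {G : Matrix κ κ ℤ} (hG : G.det ≠ 0) : (G.map (Int.cast : ℤ → F)).det ≠ 0 :=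
  (((Int.castRingHom F).map_det G).symm.trans_ne (Int.cast_ne_zero.2 hG) :)

omit [Dim] in
theorem fin_comap {K' : IntermediateField ℚ ℂ} (h : K ≤ K') (U : Subgroup (ℂ ≃ₐ[K] ℂ))
    [U.FiniteIndex] : (U.comap (res h)).FiniteIndex :=
  ⟨by rw [Subgroup.index_comap]; exact Subgroup.FiniteIndex.index_ne_zero⟩

/-- Two isogenies that intertwine the same actions. -/
theorem comm_of {l : ℕ} [Fact l.Prime] {G d : MZ} (hG : G.det ≠ 0) {x g : Matrix ν ν ℤ_[l]}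
    (h1 : x * zM ℤ_[l] G = zM ℤ_[l] G * g)
    (h2 : x * zM ℤ_[l] (d * G) = zM ℤ_[l] (d * G) * g) : Commute (zM ℤ_[l] d) x := by
  have h3 : (zM ℤ_[l] d * x - x * zM ℤ_[l] d) * zM ℤ_[l] G = 0 := by
    rw [zM_mul] at h2
    rw [Matrix.sub_mul, Matrix.mul_assoc, Matrix.mul_assoc, h1, h2, Matrix.mul_assoc, sub_self]
  have h4 := congrArg (· * (zM ℤ_[l] G).adjugate) h3
  simp only [Matrix.mul_assoc, mul_adjugate, Matrix.mul_smul, Matrix.mul_one,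
    Matrix.zero_mul] at h4
  exact sub_eq_zero.1 ((smul_eq_zero.1 h4).resolve_left (det_cast hG))

/-- The theta model over a field of definition of the endomorphisms. -/
theorem exists_model [FiniteDimensional ℚ K] (hτ : InH τ) {a b G : MZ} (hG : G.det ≠ 0)
    {R : (ℂ ≃ₐ[K] ℂ) → (ν → ℝ) → (ν → ℝ) → Prop} (hgr : ∀ σ, Gr (R σ))
    (U₁ : Subgroup (ℂ ≃ₐ[K] ℂ)) [U₁.FiniteIndex]
    (hR : ∀ σ ∈ U₁, ∀ x y, R σ x y → Gal.Rl τ σ.toRingEquiv (zr G *ᵥ x) (zr G *ᵥ y))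
    (ha : ∀ σ ∈ U₁, ∀ x y, R σ x y → Gal.Rl τ σ.toRingEquiv (zr (a * G) *ᵥ x) (zr (a * G) *ᵥ y))
    {c : ℤ} (hc0 : c ≠ 0) (hb : ∀ σ ∈ U₁, ∀ x y, R σ x y →
      Gal.Rl τ σ.toRingEquiv (zr (c • b * G) *ᵥ x) (zr (c • b * G) *ᵥ y)) :
    ∃ (K' : IntermediateField ℚ ℂ) (hK : K ≤ K') (r : Rep K'), AV τ K' r ∧ COMM a b r ∧
      ∀ (l : ℕ) [Fact l.Prime] (σ : ℂ ≃ₐ[K'] ℂ),
        Gal.Ac τ (res hK σ).toRingEquiv (r l σ : Matrix ν ν ℤ_[l]) := by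
  obtain ⟨K', hK, hfin, hK'⟩ := exists_field hτ U₁ fun σ hσ => by
    simpa using hR σ hσ 0 0 (hgr σ).zero
  obtain ⟨r, hr, hu⟩ := Gal.exists_rep hτ hK'
  have hA : AV τ K' r := ⟨hτ, hfin, hK', hr⟩
  have := fin_comap hK U₁
  have key : ∀ d : MZ, (∀ σ ∈ U₁, ∀ x y, R σ x y →
      Gal.Rl τ σ.toRingEquiv (zr (d * G) *ᵥ x) (zr (d * G) *ᵥ y)) → ∀ σ ∈ U₁.comap (res hK),
      ∀ (l : ℕ) [Fact l.Prime], Commute (zM ℤ_[l] d) (r l σ : Matrix ν ν ℤ_[l]) :=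
    fun d hd σ hσ l _ => by
      obtain ⟨g, hg⟩ := (hgr (res hK σ)).ta (l := l)
      exact comm_of hG (hg.inter (R' := Gal.Rl τ σ.toRingEquiv) (fun x y y' a b => a.unique hτ b)
        (hR _ hσ) ((hu l σ _).2 rfl)) (hg.inter (R' := Gal.Rl τ σ.toRingEquiv)
          (fun x y y' a b => a.unique hτ b) (hd _ hσ) ((hu l σ _).2 rfl))
  obtain ⟨K'', hK'', h1, h2⟩ := exists_comm hA a b _ (key a ha) fun σ hσ l _ => by
    have h1 := (key _ hb σ hσ l).eq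
    rw [zM_smul, smul_mul_assoc, mul_smul_comm] at h1
    exact smul_right_injective _ (Int.cast_ne_zero.2 hc0) h1
  exact ⟨K'', hK.trans hK'', _, h1, h2, fun l _ σ => (hu l (res hK'' σ) _).2 rfl⟩

/-- The theorem for a torus with an additive Galois action that maps to the theta model. -/
theorem transfer (K : IntermediateField ℚ ℂ) [FiniteDimensional ℚ K] {e : ℕ} {a b : MZ}
    {m n : ℕ} (hP : PEL e a b m n) (hτ : τ ∈ FX a b)
    (hF : ∀ (K' : IntermediateField ℚ ℂ) (r : Rep K'), AV τ K' r → COMM a b r → FULL e a b r)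
    {I : Matrix ν ν ℝ} {G : MZ}
    (hG : G.det ≠ 0) (hGI : cst τ * zr G = zr G * I)
    {R : (ℂ ≃ₐ[K] ℂ) → (ν → ℝ) → (ν → ℝ) → Prop} (hgr : ∀ σ, Gr (R σ))
    (U₁ : Subgroup (ℂ ≃ₐ[K] ℂ)) [U₁.FiniteIndex]
    (hR : ∀ σ ∈ U₁, ∀ x y, R σ x y → Gal.Rl τ σ.toRingEquiv (zr G *ᵥ x) (zr G *ᵥ y))
    (ha : ∀ σ ∈ U₁, ∀ x y, R σ x y → Gal.Rl τ σ.toRingEquiv (zr (a * G) *ᵥ x) (zr (a * G) *ᵥ y))
    {c : ℤ} (hc0 : c ≠ 0) (hb : ∀ σ ∈ U₁, ∀ x y, R σ x y →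
      Gal.Rl τ σ.toRingEquiv (zr (c • b * G) *ᵥ x) (zr (c • b * G) *ᵥ y))
    (l : ℕ) [Fact l.Prime] (U : Subgroup (ℂ ≃ₐ[K] ℂ)) (hU : U.FiniteIndex)
    {T : Set (GL ν ℚ_[l])} (hT : ∀ σ ∈ U, ∀ g : GL ν ℤ_[l], Ta (R σ) (g : Matrix ν ν ℤ_[l]) →
      toQ g ∈ T)
    (h : T ⊆ zeroSet ℚ_[l] (mtEqns I)) :
    zcl (AlgebraicClosure ℚ_[l]) T = zeroSet (AlgebraicClosure ℚ_[l]) (mtEqns I) := by
  obtain ⟨K', hK, r, hA, hc, hu⟩ := exists_model hτ.1 hG hgr U₁ hR ha hc0 hb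
  have := hA.fin
  have hU' := fin_comap hK (U ⊓ U₁)
  have e₀ : ∀ (F : Type) [Field F] [Algebra ℚ F], (G.map (Int.cast : ℤ → ℚ)).map (algebraMap ℚ F) =
      G.map (Int.cast : ℤ → F) := fun F _ _ => by
    ext i j
    simp
  obtain ⟨s, hs⟩ := hF K' r hA hc l _ hU'
  refine conj_main (Matrix.mul_nonsing_inv _ (Ne.isUnit (det_cast hG))) (I' := cst τ)
    (by rw [e₀]; exact hGI)
    (T' := (fun σ => toQ (r l σ)) '' ((U ⊓ U₁).comap (res hK))) ?_ h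
    (last K' (r l) hP hτ (Kz.mu hA l) _ s.toMor hs)
  rintro _ ⟨σ, hσ, rfl⟩
  obtain ⟨g, hg⟩ := (hgr (res hK σ)).ta (l := l)
  have h1 := hg.inter (R' := Gal.Rl τ (res hK σ).toRingEquiv)
    (fun x y y' a b => a.unique hτ.1 b) (hR _ hσ.2) (hu l σ)
  have h2 : IsUnit g := by
    have h3 := congrArg Matrix.det h1
    rw [Matrix.det_mul, Matrix.det_mul, mul_comm] at h3
    rw [Matrix.isUnit_iff_isUnit_det, ← mul_left_cancel₀ (det_cast hG) h3]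
    exact (Matrix.isUnit_iff_isUnit_det _).1 (r l σ).isUnit
  obtain ⟨g, rfl⟩ := h2
  refine ⟨_, hT _ hσ.1 g hg, ?_⟩
  have h3 := congrArg (fun x => x.map (PadicInt.Coe.ringHom (p := l))) h1
  simp only [Matrix.map_mul] at h3
  rw [show (G.map (Int.cast : ℤ → ℤ_[l])).map (PadicInt.Coe.ringHom (p := l)) =
    G.map (Int.cast : ℤ → ℚ_[l]) by ext i j; simp] at h3
  rw [e₀]
  exact h3

end MG.Un
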